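import Pool.Agent.H84.ND.Targets2

/-!
# Row LCO of the board `ndc_modules`: the leading coefficients of sections
-/

set_option autoImplicit false

namespace Pool.Agent.H68.ND

open MvPolynomial SC Pool.Agent.H27.LV Pool.Agent.H84.SM Pool.Agent.H84.ND

variable {k : Type} [Field k]

private theorem gA_ne (G : MvPolynomial (Fin 3) k) (hG : G ≠ 0) : gA G ≠ 0 := by
  have h1 : gA G = rename (Sum.inl : Fin 3 → Fin 3 ⊕ Fin 3) G := by
    unfold gA
    rw [rename_eq_aeval]
    rfl
  rw [h1]
  intro h
  apply hG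
  apply rename_injective _ Sum.inl_injective
  rw [h, map_zero]

private theorem dv_gA (G : MvPolynomial (Fin 3) k) : dv (gA G) = 0 := by
  unfold gA
  induction G using MvPolynomial.induction_on with
  | C a => rw [aeval_C, Derivation.map_algebraMap]
  | add p q hp hq => rw [map_add, map_add, hp, hq, add_zero]
  | mul_X p i hp =>
    rw [map_mul, Derivation.leibniz, hp, smul_zero, add_zero, aeval_X]
    have : dv (xa i : A2 k) = 0 := by
      unfold xa dv
      rw [mkDerivation_X]
      rfl
    rw [this, smul_zero]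

private theorem gA_wx (G : MvPolynomial (Fin 3) k) (d : ℕ) (h : G.IsHomogeneous d) :
    BH d 0 (gA G) := by
  have h1 : gA G = rename (Sum.inl : Fin 3 → Fin 3 ⊕ Fin 3) G := by
    unfold gA
    rw [rename_eq_aeval]
    rfl
  constructor
  · intro m hm
    rw [h1] at hm
    obtain ⟨m', rfl, hm'⟩ := coeff_rename_ne_zero _ _ _ hm
    have := h hm'
    rw [← this]
    simp only [Finsupp.weight_apply]
    rw [Finsupp.sum_mapDomain_index (by intro b; simp) (by intro b m1 m2; simp [add_mul])]
    rfl
  · intro m hm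
    rw [h1] at hm
    obtain ⟨m', rfl, hm'⟩ := coeff_rename_ne_zero _ _ _ hm
    simp only [Finsupp.weight_apply]
    rw [Finsupp.sum_mapDomain_index (by intro b; simp) (by intro b m1 m2; simp [add_mul])]
    simp [wy]

private theorem gA_pow (G : MvPolynomial (Fin 3) k) (d : ℕ) (h : G.IsHomogeneous d) (J : ℕ) :
    BH (d * J) 0 (gA G ^ J) := by
  induction J with
  | zero =>
    rw [pow_zero, Nat.mul_zero]
    exact ⟨isWeightedHomogeneous_one k _, isWeightedHomogeneous_one k _⟩
  | succ J ih =>
    rw [pow_succ, Nat.mul_succ]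
    have h1 := ih.1.mul (gA_wx G d h).1
    have h2 := ih.2.mul (gA_wx G d h).2
    exact ⟨h1, h2⟩

private theorem Psi_C (G : MvPolynomial (Fin 3) k) (d : ℕ) (l : Fin 3) (c : A2 k) :
    Psi G d l (Polynomial.C c) = Polynomial.C (aeval (Sum.elim xb (chy G l)) c) := by
  unfold Psi
  rw [Polynomial.coe_eval₂RingHom, Polynomial.eval₂_C]
  rfl

private theorem aeval_gA (G : MvPolynomial (Fin 3) k) (y : Fin 3 → B2 k) :
    aeval (Sum.elim xb y) (gA G) = aeval xb G := by
  unfold gA
  rw [← AlgHom.comp_apply]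
  congr 1
  apply MvPolynomial.algHom_ext
  intro i
  rw [AlgHom.comp_apply, aeval_X, aeval_X]
  unfold xa
  rw [aeval_X]
  rfl

private theorem coeff_lin {R : Type} [CommRing R] (a b : R) (j J : ℕ) (h : j ≤ J) :
    ((Polynomial.C a * Polynomial.X - Polynomial.C b) ^ j).coeff J = if j = J then a ^ J else 0 := by
  have hd : (Polynomial.C a * Polynomial.X - Polynomial.C b).natDegree ≤ 1 := by
    apply (Polynomial.natDegree_sub_le _ _).trans
    rw [Polynomial.natDegree_C]
    apply max_le _ (Nat.zero_le _)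
    exact (Polynomial.natDegree_C_mul_le _ _).trans Polynomial.natDegree_X_le
  have hd2 : ((Polynomial.C a * Polynomial.X - Polynomial.C b) ^ j).natDegree ≤ j :=
    Polynomial.natDegree_pow_le.trans (by nlinarith)
  split_ifs with hj
  · subst hj
    have := Polynomial.coeff_pow_of_natDegree_le (m := j) hd
    rw [Nat.mul_one] at this
    rw [this]
    congr 1
    simp
  · exact Polynomial.coeff_eq_zero_of_natDegree_lt (by omega)

private theorem top_coeff (G : MvPolynomial (Fin 3) k) (d : ℕ) (l : Fin 3) (N : R2 k) (J : ℕ)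
    (hJ : ∀ j, J < j → N.coeff j = 0) : (Psi G d l N).coeff J =
    aeval (Sum.elim xb (chy G l)) (N.coeff J) * ((d : B2 k) * aeval xb G) ^ J := by
  have hd : N.natDegree < J + 1 := by
    have : N.natDegree ≤ J := Polynomial.natDegree_le_iff_coeff_eq_zero.2 (fun j hj => hJ j hj)
    omega
  unfold Psi
  rw [Polynomial.coe_eval₂RingHom, Polynomial.eval₂_eq_sum_range' _ hd, Polynomial.finsetSum_coeff,
    Finset.sum_eq_single J]
  · simp only [RingHom.comp_apply, Polynomial.coeff_C_mul]
    unfold chw
    rw [coeff_lin _ _ _ _ le_rfl, if_pos rfl]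
    rfl
  · intro j hj hne
    simp only [RingHom.comp_apply, Polynomial.coeff_C_mul]
    unfold chw
    rw [coeff_lin _ _ _ _ (by have := Finset.mem_range.1 hj; omega), if_neg hne, mul_zero]
  · intro h
    exact absurd (Finset.mem_range.2 (Nat.lt_succ_self J)) h

theorem pf_LCO (hSME : T_SME) : T_LCO := by
  intro k _ _ _ G d hd hG hne n M τ N hN J h3 hJ
  obtain ⟨hinv, ⟨e, he, hb⟩, hdiv⟩ := hN
  rw [hSME k G d hd hG hne]
  refine ⟨M, gA G ^ J * N.coeff J, ⟨?_, ⟨e + d * J, ?_, ?_⟩, ?_⟩, ?_⟩
  · intro j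
    rcases Nat.eq_zero_or_pos j with rfl | hj
    · rw [Polynomial.coeff_C_zero, Derivation.leibniz, hinv J, smul_zero, zero_add,
        Derivation.leibniz_pow, dv_gA, smul_zero, smul_zero, smul_zero]
    · rw [Polynomial.coeff_C_of_ne_zero hj.ne', map_zero]
  · push_cast [Nat.cast_sub h3]
    rw [he]
    ring
  · intro j
    rcases Nat.eq_zero_or_pos j with rfl | hj
    · refine ⟨fun _ => ?_, fun h => absurd h (by omega)⟩
      rw [Polynomial.coeff_C_zero]
      have h1 := gA_pow G d hG J
      have h2 := (hb J).1 h3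
      refine ⟨?_, ?_⟩
      · have := h1.1.mul h2.1
        rwa [add_comm] at this
      · have := h1.2.mul h2.2
        rwa [zero_add] at this
    · rw [Polynomial.coeff_C_of_ne_zero hj.ne']
      exact ⟨fun _ => ⟨isWeightedHomogeneous_zero k _ _, isWeightedHomogeneous_zero k _ _⟩,
        fun _ => rfl⟩
  · intro l
    have h1 := hdiv l
    have h2 : (aeval xb G : B2 k) ^ M ∣ (Psi G d l N).coeff J := by
      have h3 : gp G ^ M = Polynomial.C ((aeval xb G : B2 k) ^ M) := by
        unfold gp
        rw [Polynomial.C_pow]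
      rw [h3, Polynomial.C_dvd_iff_dvd_coeff] at h1
      exact h1 J
    rw [top_coeff G d l N J hJ] at h2
    have hu : IsUnit ((d : B2 k)) := by
      have h4 : ((d : B2 k)) = C ((d : k)) := by rw [map_natCast]
      rw [h4]
      apply IsUnit.map
      exact IsUnit.mk0 _ (Nat.cast_ne_zero.2 (by omega))
    have h5 : (aeval xb G : B2 k) ^ M ∣
        aeval (Sum.elim xb (chy G l)) (N.coeff J) * (aeval xb G) ^ J := by
      have h6 : aeval (Sum.elim xb (chy G l)) (N.coeff J) * ((d : B2 k) * aeval xb G) ^ J =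
          (d : B2 k) ^ J * (aeval (Sum.elim xb (chy G l)) (N.coeff J) * (aeval xb G) ^ J) := by
        rw [mul_pow]
        ring
      rw [h6] at h2
      exact ((hu.pow J).dvd_mul_left).1 h2
    rw [Psi_C, map_mul, map_pow, aeval_gA]
    unfold gp
    rw [← Polynomial.C_pow]
    apply Polynomial.C_dvd_iff_dvd_coeff _ _ |>.2
    intro j
    rcases Nat.eq_zero_or_pos j with rfl | hj
    · rw [Polynomial.coeff_C_zero, mul_comm]
      exact h5
    · rw [Polynomial.coeff_C_of_ne_zero hj.ne']
      exact dvd_zero _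
  · have hgF : gF G ≠ 0 := by
      unfold gF
      intro h
      apply gA_ne G hne
      apply IsFractionRing.injective (A2 k) (F2 k)
      rw [h, map_zero]
    unfold sec
    rw [Polynomial.coeff_C_mul, Polynomial.coeff_map, map_mul, map_pow]
    have h1 : gF G ^ M ≠ 0 := pow_ne_zero _ hgF
    have h2 : algebraMap (A2 k) (F2 k) (gA G) = gF G := rfl
    rw [h2]
    field_simp

end Pool.Agent.H68.ND
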