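import Pool.Agent.H84.ND.Targets2

/-!
# Row TLN of the board `ndc_modules`: transversal lines exist
-/

set_option autoImplicit false

namespace Pool.Agent.H68.ND

open MvPolynomial SC Pool.Agent.H27.LV Pool.Agent.H84.SM Pool.Agent.H84.ND

variable {k : Type} [Field k]

/-- the substitution `x ↦ x + X a` -/
private noncomputable def sh (a : Fin 3 → k) :
    MvPolynomial (Fin 3) k →ₐ[k] Polynomial (MvPolynomial (Fin 3) k) :=
  aeval (fun i => Polynomial.C (X i) + Polynomial.C (C (a i)) * Polynomial.X)

private noncomputable def She (a : Fin 3 → k) :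
    Polynomial (MvPolynomial (Fin 3) k) →+* Polynomial (MvPolynomial (Fin 3) k) :=
  Polynomial.eval₂RingHom (sh a : MvPolynomial (Fin 3) k →+* Polynomial (MvPolynomial (Fin 3) k))
    Polynomial.X

private theorem She_C (a : Fin 3 → k) (r : MvPolynomial (Fin 3) k) :
    She a (Polynomial.C r) = sh a r := by
  unfold She
  rw [Polynomial.coe_eval₂RingHom, Polynomial.eval₂_C]
  rfl

private theorem She_X (a : Fin 3 → k) : She a Polynomial.X = Polynomial.X := by
  unfold She
  rw [Polynomial.coe_eval₂RingHom, Polynomial.eval₂_X]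

private theorem sh_C (a : Fin 3 → k) (c : k) : sh a (C c) = Polynomial.C (C c) := by
  unfold sh
  rw [aeval_C]
  rfl

private theorem sh_X (a : Fin 3 → k) (i : Fin 3) :
    sh a (X i) = Polynomial.C (X i) + Polynomial.C (C (a i)) * Polynomial.X := by
  unfold sh
  rw [aeval_X]

private theorem She_sh (a : Fin 3 → k) (G : MvPolynomial (Fin 3) k) :
    She a (sh (-a) G) = Polynomial.C G := by
  induction G using MvPolynomial.induction_on with
  | C c => rw [sh_C, She_C, sh_C]
  | add p q hp hq => rw [map_add, map_add, hp, hq, Polynomial.C_add]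
  | mul_X p i hp =>
    rw [map_mul, map_mul, hp, Polynomial.C_mul, sh_X, map_add, map_mul, She_C, She_C, She_X, sh_X,
      sh_C]
    congr 1
    simp only [Pi.neg_apply, map_neg]
    ring

private theorem She_She (a : Fin 3 → k) (p : Polynomial (MvPolynomial (Fin 3) k)) :
    She a (She (-a) p) = p := by
  induction p using Polynomial.induction_on' with
  | add p q hp hq => rw [map_add, map_add, hp, hq]
  | monomial n r =>
    rw [← Polynomial.C_mul_X_pow_eq_monomial, map_mul, map_mul, map_pow, map_pow, She_C, She_sh,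
      She_X, She_X]

private theorem sq_sh (a : Fin 3 → k) (G : MvPolynomial (Fin 3) k) (hG : Squarefree G) :
    Squarefree (sh a G) := by
  have hG0 : G ≠ 0 := hG.ne_zero
  intro p hp
  have h1 : She (-a) p * She (-a) p ∣ Polynomial.C G := by
    have := map_dvd (She (-a)) hp
    have h2 := She_sh (-a) G
    rw [neg_neg] at h2
    rwa [map_mul, h2] at this
  have hC : (Polynomial.C G : Polynomial (MvPolynomial (Fin 3) k)) ≠ 0 := by
    rwa [Ne, Polynomial.C_eq_zero]
  have h3 := Polynomial.natDegree_le_of_dvd h1 hC
  have h4 : She (-a) p ≠ 0 := by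
    intro h
    rw [h, mul_zero, zero_dvd_iff] at h1
    exact hC h1
  rw [Polynomial.natDegree_C, Polynomial.natDegree_mul h4 h4] at h3
  obtain ⟨r, hr⟩ := Polynomial.natDegree_eq_zero.1 (show (She (-a) p).natDegree = 0 by omega)
  rw [← hr, ← Polynomial.C_mul, Polynomial.C_dvd_iff_dvd_coeff] at h1
  have h5 := h1 0
  rw [Polynomial.coeff_C_zero] at h5
  have h6 : IsUnit (She (-a) p) := by
    rw [← hr]
    exact (hG r h5).map _
  have := h6.map (She a)
  rwa [She_She] at this

private theorem sh_coeff (a : Fin 3 → k) (G : MvPolynomial (Fin 3) k) (d : ℕ)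
    (hG : G.IsHomogeneous d) : (sh a G).natDegree ≤ d ∧ (sh a G).coeff d = C (eval a G) := by
  have hlin : ∀ i, (Polynomial.C (X i) + Polynomial.C (C (a i)) * Polynomial.X :
      Polynomial (MvPolynomial (Fin 3) k)).natDegree ≤ 1 := by
    intro i
    apply (Polynomial.natDegree_add_le _ _).trans
    rw [Polynomial.natDegree_C]
    exact max_le (Nat.zero_le _) ((Polynomial.natDegree_C_mul_le _ _).trans
      Polynomial.natDegree_X_le)
  have hmon : ∀ m ∈ G.support, (∏ i, (Polynomial.C (X i) + Polynomial.C (C (a i)) * Polynomial.X :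
      Polynomial (MvPolynomial (Fin 3) k)) ^ m i).natDegree ≤ d ∧
      (∏ i, (Polynomial.C (X i) + Polynomial.C (C (a i)) * Polynomial.X :
      Polynomial (MvPolynomial (Fin 3) k)) ^ m i).coeff d = ∏ i, (C (a i)) ^ m i := by
    intro m hm
    have h1 : m 0 + m 1 + m 2 = d := by
      have h2 := hG (mem_support_iff.1 hm)
      rw [← h2, Finsupp.weight_apply, Finsupp.sum_fintype _ _ (by intro i; simp),
        Fin.sum_univ_three]
      simp
    have h3 : ∀ i, ((Polynomial.C (X i) + Polynomial.C (C (a i)) * Polynomial.X :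
        Polynomial (MvPolynomial (Fin 3) k)) ^ m i).natDegree ≤ m i := fun i =>
      Polynomial.natDegree_pow_le.trans (by nlinarith [hlin i])
    have h4 : ∀ i, ((Polynomial.C (X i) + Polynomial.C (C (a i)) * Polynomial.X :
        Polynomial (MvPolynomial (Fin 3) k)) ^ m i).coeff (m i) = C (a i) ^ m i := by
      intro i
      have := Polynomial.coeff_pow_of_natDegree_le (m := m i) (hlin i)
      rw [Nat.mul_one] at this
      rw [this]
      congr 1
      simp
    rw [Fin.prod_univ_three, Fin.prod_univ_three, ← h1]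
    have h5 := Polynomial.natDegree_mul_le_of_le (h3 0) (h3 1)
    refine ⟨Polynomial.natDegree_mul_le_of_le h5 (h3 2), ?_⟩
    rw [Polynomial.coeff_mul_add_eq_of_natDegree_le h5 (h3 2),
      Polynomial.coeff_mul_add_eq_of_natDegree_le (h3 0) (h3 1), h4, h4, h4]
  unfold sh
  rw [aeval_def, eval₂_eq', eval_eq']
  constructor
  · apply Polynomial.natDegree_sum_le_of_forall_le
    intro m hm
    rw [IsScalarTower.algebraMap_apply k (MvPolynomial (Fin 3) k)
      (Polynomial (MvPolynomial (Fin 3) k))]
    exact (Polynomial.natDegree_C_mul_le _ _).trans (hmon m hm).1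
  · rw [Polynomial.finsetSum_coeff, map_sum]
    apply Finset.sum_congr rfl
    intro m hm
    rw [IsScalarTower.algebraMap_apply k (MvPolynomial (Fin 3) k)
      (Polynomial (MvPolynomial (Fin 3) k))]
    have h6 : (algebraMap (MvPolynomial (Fin 3) k) (Polynomial (MvPolynomial (Fin 3) k)))
      (algebraMap k (MvPolynomial (Fin 3) k) (coeff m G)) = Polynomial.C (C (coeff m G)) := rfl
    rw [h6, Polynomial.coeff_C_mul, (hmon m hm).2, map_mul, map_prod]
    simp only [map_pow]

/-- Gauss: a monic squarefree polynomial over a UFD is squarefree over the fraction field -/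
private theorem gauss {R K : Type} [CommRing R] [IsDomain R] [IsIntegrallyClosed R] [Field K]
    [Algebra R K] [IsFractionRing R K] (P : Polynomial R) (hP : P.Monic) (hs : Squarefree P) :
    Squarefree (P.map (algebraMap R K)) := by
  intro p hp
  have hinj : Function.Injective (algebraMap R K) := IsFractionRing.injective R K
  have hne : P.map (algebraMap R K) ≠ 0 := (hP.map _).ne_zero
  have hp0 : p ≠ 0 := by
    rintro rfl
    rw [mul_zero, zero_dvd_iff] at hp
    exact hne hp
  obtain ⟨q, hq⟩ := IsIntegrallyClosed.eq_map_mul_C_of_dvd K hP ((Dvd.intro _ rfl).trans hp)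
  have hl : p.leadingCoeff ≠ 0 := Polynomial.leadingCoeff_ne_zero.2 hp0
  have hu : IsUnit (Polynomial.C p.leadingCoeff) := Polynomial.isUnit_C.2 (IsUnit.mk0 _ hl)
  have hqm : q.Monic := by
    have h1 : (q.map (algebraMap R K)).leadingCoeff = 1 := by
      have h2 : (q.map (algebraMap R K) * Polynomial.C p.leadingCoeff).leadingCoeff =
        p.leadingCoeff := by rw [hq]
      rw [Polynomial.leadingCoeff_mul, Polynomial.leadingCoeff_C] at h2
      exact mul_right_cancel₀ hl (by rw [h2, one_mul])
    rw [Polynomial.leadingCoeff_map_of_injective hinj] at h1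
    apply hinj
    rw [h1, map_one]
  have h3 : (q * q).map (algebraMap R K) ∣ P.map (algebraMap R K) := by
    rw [Polynomial.map_mul]
    refine Dvd.dvd.trans ?_ hp
    rw [← hq]
    exact mul_dvd_mul (Dvd.intro _ rfl) (Dvd.intro _ rfl)
  have h4 := Polynomial.Monic.dvd_of_fraction_map_dvd_fraction_map hP (hqm.mul hqm) h3
  have h5 := hs q h4
  have h6 : IsUnit (q.map (algebraMap R K)) := h5.map (Polynomial.mapRingHom (algebraMap R K))
  rw [← hq]
  exact h6.mul hu

/-- clearing denominators: a monic squarefree polynomial is coprime to its derivative up to a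
nonzero constant -/
private theorem bezout {R : Type} [CommRing R] [IsDomain R] [IsIntegrallyClosed R] [CharZero R]
    (P : Polynomial R) (hP : P.Monic) (hs : Squarefree P) : ∃ (D : R) (A B : Polynomial R),
    D ≠ 0 ∧ A * P + B * Polynomial.derivative P = Polynomial.C D := by
  have h1 := gauss (K := FractionRing R) P hP hs
  have : CharZero (FractionRing R) := by
    refine ⟨fun a b h => ?_⟩
    have h2 : algebraMap R (FractionRing R) a = algebraMap R (FractionRing R) b := by
      rw [map_natCast, map_natCast]
      exact h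
    exact Nat.cast_injective (IsFractionRing.injective R (FractionRing R) h2)
  rw [← PerfectField.separable_iff_squarefree] at h1
  obtain ⟨A, B, hAB⟩ := h1
  obtain ⟨b, hbm, hb⟩ := IsLocalization.integerNormalization_spec (nonZeroDivisors R) A
  obtain ⟨c, hcm, hc⟩ := IsLocalization.integerNormalization_spec (nonZeroDivisors R) B
  refine ⟨b * c, Polynomial.C c * IsLocalization.integerNormalization (nonZeroDivisors R) A,
    Polynomial.C b * IsLocalization.integerNormalization (nonZeroDivisors R) B,
    mul_ne_zero (nonZeroDivisors.ne_zero hbm) (nonZeroDivisors.ne_zero hcm), ?_⟩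
  apply Polynomial.map_injective _ (IsFractionRing.injective R (FractionRing R))
  rw [Polynomial.map_add, Polynomial.map_mul, Polynomial.map_mul, Polynomial.map_mul,
    Polynomial.map_mul, Polynomial.map_C, Polynomial.map_C, Polynomial.map_C, hb, hc,
    ← Polynomial.derivative_map]
  have h3 : ∀ (r : R) (f : Polynomial (FractionRing R)), r • f =
      Polynomial.C (algebraMap R (FractionRing R) r) * f := by
    intro r f
    rw [Algebra.smul_def]
    rfl
  rw [map_mul, Polynomial.C_mul, h3, h3]
  linear_combination (Polynomial.C (algebraMap R (FractionRing R) (b : R)) *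
    Polynomial.C (algebraMap R (FractionRing R) (c : R))) * hAB

private theorem der_sh (a : Fin 3 → k) (G : MvPolynomial (Fin 3) k) :
    Polynomial.derivative (sh a G) = ∑ i, Polynomial.C (C (a i)) * sh a (pderiv i G) := by
  induction G using MvPolynomial.induction_on with
  | C c =>
    rw [sh_C, Polynomial.derivative_C]
    symm
    apply Finset.sum_eq_zero
    intro i _
    rw [pderiv_C, map_zero, mul_zero]
  | add p q hp hq =>
    rw [map_add, map_add, hp, hq, ← Finset.sum_add_distrib]
    apply Finset.sum_congr rfl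
    intro i _
    rw [map_add, map_add, mul_add]
  | mul_X p j hp =>
    have h1 : ∀ i, Polynomial.C (C (a i)) * sh a (pderiv i (p * X j)) =
        Polynomial.C (C (a i)) * sh a (pderiv i p) * sh a (X j) +
          sh a p * (if i = j then Polynomial.C (C (a i)) else 0) := by
      intro i
      rw [pderiv_mul, map_add, map_mul, map_mul, pderiv_X]
      split_ifs with h
      · subst h
        rw [Pi.single_eq_same, map_one]
        ring
      · rw [Pi.single_eq_of_ne (fun h' => h h'.symm), map_zero]
        ring
    have h2 : ∑ i, (if i = j then (Polynomial.C (C (a i)) : Polynomial (MvPolynomial (Fin 3) k))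
        else 0) = Polynomial.C (C (a j)) := by
      rw [Finset.sum_ite_eq']
      exact if_pos (Finset.mem_univ _)
    have h3 : ∑ i, Polynomial.C (C (a i)) * sh a (pderiv i (p * X j)) =
        (∑ i, Polynomial.C (C (a i)) * sh a (pderiv i p)) * sh a (X j) +
          sh a p * Polynomial.C (C (a j)) := by
      calc _ = ∑ i, (Polynomial.C (C (a i)) * sh a (pderiv i p) * sh a (X j) +
          sh a p * (if i = j then Polynomial.C (C (a i)) else 0)) :=
            Finset.sum_congr rfl (fun i _ => h1 i)
        _ = _ := by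
            rw [Finset.sum_add_distrib, Finset.sum_mul, ← Finset.mul_sum, h2]
    have h4 : Polynomial.derivative (sh a (X j : MvPolynomial (Fin 3) k)) =
        Polynomial.C (C (a j)) := by
      rw [sh_X, Polynomial.derivative_add, Polynomial.derivative_C, zero_add,
        Polynomial.derivative_C_mul, Polynomial.derivative_X, mul_one]
    rw [h3, map_mul, Polynomial.derivative_mul, hp, h4]

private theorem ev_sh (a b : Fin 3 → k) (c : k) (G : MvPolynomial (Fin 3) k) :
    Polynomial.eval₂ (eval b) c (sh a G) = eval (c • a + b) G := by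
  induction G using MvPolynomial.induction_on with
  | C r => rw [sh_C, Polynomial.eval₂_C, eval_C, eval_C]
  | add p q hp hq => rw [map_add, Polynomial.eval₂_add, hp, hq, map_add]
  | mul_X p j hp =>
    rw [map_mul, Polynomial.eval₂_mul, hp, map_mul, sh_X, Polynomial.eval₂_add,
      Polynomial.eval₂_mul, Polynomial.eval₂_C, Polynomial.eval₂_C, Polynomial.eval₂_X, eval_X,
      eval_C, eval_X, Pi.add_apply, Pi.smul_apply, smul_eq_mul]
    ring

private theorem hom_eval (G : MvPolynomial (Fin 3) k) (d : ℕ) (hG : G.IsHomogeneous d) (u : k)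
    (v : Fin 3 → k) : eval (u • v) G = u ^ d * eval v G := by
  rw [eval_eq', eval_eq', Finset.mul_sum]
  apply Finset.sum_congr rfl
  intro m hm
  have h1 : ∑ i, m i = d := by
    have h2 := hG (mem_support_iff.1 hm)
    rw [← h2, Finsupp.weight_apply, Finsupp.sum_fintype _ _ (by intro i; simp)]
    simp
  have h3 : ∏ i, (u • v) i ^ m i = u ^ d * ∏ i, v i ^ m i := by
    rw [← h1, ← Finset.prod_pow_eq_pow_sum, ← Finset.prod_mul_distrib]
    apply Finset.prod_congr rfl
    intro i _
    rw [Pi.smul_apply, smul_eq_mul, mul_pow]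
  rw [h3]
  ring

theorem pf_TLN : T_TLN := by
  intro k _ _ _ G d hd hG hs
  have hG0 : G ≠ 0 := hs.ne_zero
  have hinf : Infinite k := inferInstance
  obtain ⟨a, ha⟩ : ∃ a, eval a G ≠ 0 := by
    by_contra h
    push Not at h
    exact hG0 (MvPolynomial.funext (fun a => by rw [h a, map_zero]))
  have hunit : (C (eval a G) * C ((eval a G)⁻¹) : MvPolynomial (Fin 3) k) = 1 := by
    rw [← C_mul, mul_inv_cancel₀ ha, C_1]
  obtain ⟨hdeg, hcoef⟩ := sh_coeff a G d hG
  have hsq := sq_sh a G hs
  set P : Polynomial (MvPolynomial (Fin 3) k) := Polynomial.C (C ((eval a G)⁻¹)) * sh a G with hP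
  have hPm : P.Monic := by
    apply Polynomial.monic_of_natDegree_le_of_coeff_eq_one d
    · exact (Polynomial.natDegree_C_mul_le _ _).trans hdeg
    · rw [hP, Polynomial.coeff_C_mul, hcoef, mul_comm, hunit]
  have hPs : Squarefree P := by
    refine Squarefree.squarefree_of_dvd ⟨Polynomial.C (C (eval a G)), ?_⟩ hsq
    rw [hP]
    have : (Polynomial.C (C (eval a G)) * Polynomial.C (C ((eval a G)⁻¹)) :
      Polynomial (MvPolynomial (Fin 3) k)) = 1 := by
      rw [← Polynomial.C_mul, hunit, Polynomial.C_1]
    linear_combination (-sh a G) * this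
  obtain ⟨D, A, B, hD, hAB⟩ := bezout P hPm hPs
  have ha0 : ∃ i, a i ≠ 0 := by
    by_contra h
    push Not at h
    apply ha
    have h1 : a = (0 : k) • a := by
      rw [zero_smul]
      exact funext h
    rw [h1, hom_eval G d hG, zero_pow (by omega), zero_mul]
  obtain ⟨i, hi⟩ := ha0
  have hi1 : i + 1 ≠ i := by
    intro h
    fin_cases i <;> simp at h
  have hQ : (C (a i) * X (i + 1) - C (a (i + 1)) * X i : MvPolynomial (Fin 3) k) ≠ 0 := by
    intro h
    have h1 := congrArg (eval (fun j => if j = i + 1 then (1 : k) else 0)) h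
    rw [map_sub, map_mul, map_mul, eval_C, eval_C, eval_X, eval_X, map_zero, if_pos rfl,
      if_neg (Ne.symm hi1), mul_one, mul_zero, sub_zero] at h1
    exact hi h1
  obtain ⟨b, hb⟩ : ∃ b, eval b (D * (C (a i) * X (i + 1) - C (a (i + 1)) * X i)) ≠ 0 := by
    by_contra h
    push Not at h
    exact mul_ne_zero hD hQ (MvPolynomial.funext (fun b => by rw [h b, map_zero]))
  rw [map_mul, map_sub, map_mul, map_mul, eval_C, eval_C, eval_X, eval_X] at hb
  have hbD : eval b D ≠ 0 := left_ne_zero_of_mul hb
  have hbQ := right_ne_zero_of_mul hb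
  refine ⟨a, b, ⟨?_, ha, ?_⟩⟩
  · intro h
    apply hbQ
    have h1 := congrFun h (i + 2)
    unfold cr at h1
    have h2 : i + 2 + 1 = i := by fin_cases i <;> rfl
    have h3 : i + 2 + 2 = i + 1 := by fin_cases i <;> rfl
    rw [h2, h3] at h1
    exact h1
  · intro s u h0 hne
    have hu : u ≠ 0 := by
      rintro rfl
      rw [zero_smul, add_zero, hom_eval G d hG] at h0
      have h1 : s ^ d = 0 := (mul_eq_zero.1 h0).resolve_right ha
      have h2 : s = 0 := pow_eq_zero_iff (by omega) |>.1 h1
      rw [h2, zero_smul, zero_smul, add_zero] at hne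
      exact hne rfl
    have hv : s • a + u • b = u • ((s / u) • a + b) := by
      rw [smul_add, smul_smul, mul_div_cancel₀ _ hu]
    rw [hv] at h0 ⊢
    rw [hom_eval G d hG] at h0
    have h1 : eval ((s / u) • a + b) G = 0 := (mul_eq_zero.1 h0).resolve_left (pow_ne_zero _ hu)
    have h2 : dp (gr G (u • ((s / u) • a + b))) a =
        u ^ (d - 1) * dp (gr G ((s / u) • a + b)) a := by
      unfold dp gr
      rw [Finset.mul_sum]
      apply Finset.sum_congr rfl
      intro j _
      have h3 := hom_eval (pderiv j G) (d - 1) hG.pderiv u ((s / u) • a + b)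
      rw [← coe_aeval_eq_eval, ← coe_aeval_eq_eval] at h3
      have h4 : aeval (u • ((s / u) • a + b)) (pderiv j G) =
        u ^ (d - 1) * aeval ((s / u) • a + b) (pderiv j G) := h3
      rw [h4, mul_assoc]
    rw [h2]
    apply mul_ne_zero (pow_ne_zero _ hu)
    intro h5
    apply hbD
    have h6 := congrArg (Polynomial.eval₂ (eval b) (s / u)) hAB
    rw [Polynomial.eval₂_add, Polynomial.eval₂_mul, Polynomial.eval₂_mul, Polynomial.eval₂_C, hP,
      Polynomial.derivative_C_mul, Polynomial.eval₂_mul, Polynomial.eval₂_mul, ev_sh, h1, mul_zero,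
      mul_zero, zero_add, der_sh, Polynomial.eval₂_finsetSum] at h6
    have h7 : ∑ j, Polynomial.eval₂ (eval b) (s / u) (Polynomial.C (C (a j)) * sh a (pderiv j G)) =
        dp (gr G ((s / u) • a + b)) a := by
      unfold dp gr
      apply Finset.sum_congr rfl
      intro j _
      rw [Polynomial.eval₂_mul, Polynomial.eval₂_C, eval_C, ev_sh, mul_comm]
      rfl
    rw [h7, h5, mul_zero, mul_zero] at h6
    have h8 : Polynomial.eval₂ (eval b) (s / u) (Polynomial.C D) = eval b D :=
      Polynomial.eval₂_C _ _
    rw [← h8, ← h6]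

end Pool.Agent.H68.ND
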